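import Pool.Agent.Q72.AL.Stm

/-!
# Project AL: the effect of the lattice (job LAT)
-/

set_option autoImplicit false

open Complex MeasureTheory Filter Topology Set

noncomputable section

namespace Pool.Agent.Q53.AL

open Pool.Agent.Q72.AL
open H345 (Zo aa XX)

/-- the terms of the sum over zeros -/
def term (κ v T t : ℝ) : ℂ :=
  aa t * ((Real.exp (-(κ * (t - T) ^ 2)) : ℝ) : ℂ) * cexp ((((t - T) * v : ℝ) : ℂ) * I)

theorem norm_term (κ v T t : ℝ) :
    ‖term κ v T t‖ = ‖aa t‖ * Real.exp (-(κ * (t - T) ^ 2)) := by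
  unfold term
  rw [norm_mul, norm_mul, Complex.norm_exp_ofReal_mul_I, mul_one, Complex.norm_real,
    Real.norm_eq_abs, abs_of_pos (Real.exp_pos _)]

theorem tail_small (C1 L X : ℝ) (hX : X = Real.exp L) (hL : 3 ≤ L) (hC : C1 ≤ L) :
    2 * ((L * (5 * X - X / 3) + 1) * (Real.exp (C1 * L ^ 2) * Real.exp (-(2 * L ^ 4)))) ≤
      1 / X := by
  have hXp : 0 < X := by rw [hX]; exact Real.exp_pos _
  have hX1 : 1 ≤ X := by rw [hX]; exact Real.one_le_exp (by linarith)
  have hLX : L ≤ X := by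
    rw [hX]
    linarith [Real.add_one_le_exp L]
  have h12 : (12 : ℝ) ≤ Real.exp 3 := by
    have h1 := Real.exp_one_gt_d9
    have h2 : Real.exp 3 = Real.exp 1 ^ 3 := by
      rw [← Real.exp_nat_mul]
      norm_num
    rw [h2]
    have h3 : (2.7 : ℝ) ^ 3 ≤ Real.exp 1 ^ 3 := pow_le_pow_left₀ (by norm_num) (by linarith) 3
    norm_num at h3 ⊢
    linarith
  have h6 : L * (5 * X - X / 3) + 1 ≤ 6 * (Real.exp L * Real.exp L) := by
    rw [← hX]
    have h7 : 1 ≤ L * X := by nlinarith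
    nlinarith
  have hE : 0 < Real.exp (C1 * L ^ 2) * Real.exp (-(2 * L ^ 4)) := by positivity
  calc 2 * ((L * (5 * X - X / 3) + 1) * (Real.exp (C1 * L ^ 2) * Real.exp (-(2 * L ^ 4))))
      ≤ 2 * ((6 * (Real.exp L * Real.exp L)) *
          (Real.exp (C1 * L ^ 2) * Real.exp (-(2 * L ^ 4)))) := by gcongr
    _ = 12 * Real.exp (L + L + (C1 * L ^ 2 + -(2 * L ^ 4))) := by
        rw [Real.exp_add, Real.exp_add, Real.exp_add]
        ring
    _ ≤ Real.exp 3 * Real.exp (L + L + (C1 * L ^ 2 + -(2 * L ^ 4))) := by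
        gcongr
    _ = Real.exp (3 + (L + L + (C1 * L ^ 2 + -(2 * L ^ 4)))) := by
        rw [← Real.exp_add]
    _ ≤ Real.exp (-L) := by
        apply Real.exp_le_exp.mpr
        have a1 : C1 * L ^ 2 ≤ L ^ 3 := by
          have : C1 * L ^ 2 ≤ L * L ^ 2 := mul_le_mul_of_nonneg_right hC (sq_nonneg L)
          linarith [show L * L ^ 2 = L ^ 3 by ring]
        have a2 : 9 * L ≤ L ^ 3 := by nlinarith [sq_nonneg (L - 3), mul_nonneg (by linarith : (0:ℝ) ≤ L) (sq_nonneg (L - 3))]
        have a3 : 3 * L ^ 3 ≤ L ^ 4 := by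
          have : 0 ≤ L ^ 3 := by positivity
          nlinarith
        linarith
    _ = 1 / X := by
        rw [hX, Real.exp_neg, one_div]

theorem lat (h1 : J_AB) (h2 : J_CNT) : J_LAT := by
  intro RH a
  obtain ⟨C1, X1, hC1, hAB⟩ := h1 RH
  obtain ⟨⟨C2, hC2, hcnt⟩, hcard⟩ := h2
  refine ⟨Real.sqrt C2, max X1 (Real.exp (max 3 C1)), Real.sqrt_pos.mpr hC2, ?_⟩
  intro X δ hX hδ hδ1 hyp Z hZ T v hT1 hT2
  have hX1 : X1 ≤ X := (le_max_left _ _).trans hX
  have hXe : Real.exp (max 3 C1) ≤ X := (le_max_right _ _).trans hX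
  have hXp : 0 < X := (Real.exp_pos _).trans_le hXe
  set L := Real.log X with hL
  have hLm : max 3 C1 ≤ L := (Real.le_log_iff_exp_le hXp).mpr hXe
  have hL3 : 3 ≤ L := (le_max_left _ _).trans hLm
  have hLC : C1 ≤ L := (le_max_right _ _).trans hLm
  have hL0 : 0 < L := by linarith
  have hXL : X = Real.exp L := (Real.exp_log hXp).symm
  have hsp : ∀ t ∈ Z, ∀ t' ∈ Z, t < t' → 1 / L ≤ t' - t := by
    intro t ht t' ht' htt
    exact hyp.spaced t (hZ t ht).1 t' (hZ t' ht').1 (by linarith [(hZ t ht).2.1]) htt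
      (by linarith [(hZ t' ht').2.2])
  have haa : ∀ t ∈ Z, ‖aa t‖ ≤ Real.exp (C1 * L ^ 2) := fun t ht =>
    hAB X hX1 hyp.simple hyp.spaced t (hZ t ht).1 (hZ t ht).2.1 (hZ t ht).2.2
  set P : ℝ := 2 * (Real.log T + a) with hP
  set Z' := Z.filter (fun t => |t - T| ≤ L ^ 2) with hZ'
  set Zc := Z.filter (fun t => ¬ |t - T| ≤ L ^ 2) with hZc
  have hsplit : ∀ w : ℝ, ZZ Z 2 w T = (∑ t ∈ Z', term 2 w T t) + ∑ t ∈ Zc, term 2 w T t := by
    intro w
    rw [hZ', hZc, Finset.sum_filter_add_sum_filter_not]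
    rfl
  have hfar : ∀ w : ℝ, ‖∑ t ∈ Zc, term 2 w T t‖ ≤
      (L * (5 * X - X / 3) + 1) * (Real.exp (C1 * L ^ 2) * Real.exp (-(2 * L ^ 4))) := by
    intro w
    calc ‖∑ t ∈ Zc, term 2 w T t‖ ≤ ∑ t ∈ Zc, ‖term 2 w T t‖ := norm_sum_le _ _
      _ ≤ ∑ t ∈ Zc, Real.exp (C1 * L ^ 2) * Real.exp (-(2 * L ^ 4)) := by
          refine Finset.sum_le_sum fun t ht => ?_
          rw [norm_term]
          obtain ⟨ht1, ht2⟩ := Finset.mem_filter.mp ht
          push Not at ht2
          refine mul_le_mul (haa t ht1) ?_ (Real.exp_pos _).le (Real.exp_pos _).le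
          apply Real.exp_le_exp.mpr
          have : L ^ 4 ≤ (t - T) ^ 2 := by
            rw [← sq_abs (t - T)]
            have : (L ^ 2) ^ 2 ≤ |t - T| ^ 2 := pow_le_pow_left₀ (sq_nonneg L) ht2.le 2
            linarith [show (L ^ 2) ^ 2 = L ^ 4 by ring]
          linarith
      _ = (Zc.card : ℝ) * (Real.exp (C1 * L ^ 2) * Real.exp (-(2 * L ^ 4))) := by
          rw [Finset.sum_const, nsmul_eq_mul]
      _ ≤ _ := by
          refine mul_le_mul_of_nonneg_right ?_ (by positivity)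
          have h3 := hcard L (X / 3) (5 * X) Z hL0 (by linarith)
            (fun t ht => ⟨(hZ t ht).2.1, (hZ t ht).2.2⟩) hsp
          have h4 : (Zc.card : ℝ) ≤ Z.card := by exact_mod_cast Finset.card_filter_le _ _
          linarith
  have hnear : |‖∑ t ∈ Z', term 2 v T t‖ - ‖∑ t ∈ Z', term 2 (v + P) T t‖| ≤
      Real.sqrt C2 * δ * Real.sqrt (N2 Z T) := by
    rcases Z'.eq_empty_or_nonempty with he | hne
    · rw [he]
      simp only [Finset.sum_empty, norm_zero, sub_self, abs_zero]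
      positivity
    · obtain ⟨t0, ht0, hmin⟩ := Finset.exists_min_image Z' (fun t => |t - T|) hne
      have hterm : ∀ t : ℝ, term 2 (v + P) T t =
          cexp (((P * (t0 - T) : ℝ) : ℂ) * I) *
            (term 2 v T t * cexp (((P * (t - t0) : ℝ) : ℂ) * I)) := by
        intro t
        unfold term
        have : cexp ((((t - T) * (v + P) : ℝ) : ℂ) * I) =
            cexp (((P * (t0 - T) : ℝ) : ℂ) * I) * (cexp ((((t - T) * v : ℝ) : ℂ) * I) *
              cexp (((P * (t - t0) : ℝ) : ℂ) * I)) := by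
          rw [← Complex.exp_add, ← Complex.exp_add]
          congr 1
          push_cast
          ring
        rw [this]
        ring
      have e1 : ‖∑ t ∈ Z', term 2 (v + P) T t‖ =
          ‖∑ t ∈ Z', term 2 v T t * cexp (((P * (t - t0) : ℝ) : ℂ) * I)‖ := by
        rw [Finset.sum_congr rfl (fun t _ => hterm t), ← Finset.mul_sum, norm_mul,
          Complex.norm_exp_ofReal_mul_I, one_mul]
      rw [e1]
      refine (abs_norm_sub_norm_le _ _).trans ?_
      rw [← Finset.sum_sub_distrib]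
      have hLs : 0 < Real.sqrt L := Real.sqrt_pos.mpr hL0
      have e2 : ∀ t ∈ Z', ‖term 2 v T t - term 2 v T t * cexp (((P * (t - t0) : ℝ) : ℂ) * I)‖ ≤
          δ / Real.sqrt L * ((‖aa t‖ * Real.exp (-(t - T) ^ 2)) *
            (2 * |t - T| * Real.exp (-(t - T) ^ 2))) := by
        intro t ht
        obtain ⟨ht1, ht2⟩ := Finset.mem_filter.mp ht
        obtain ⟨ht01, ht02⟩ := Finset.mem_filter.mp ht0
        have f1 : term 2 v T t - term 2 v T t * cexp (((P * (t - t0) : ℝ) : ℂ) * I) =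
            -(term 2 v T t * (cexp (((P * (t - t0) : ℝ) : ℂ) * I) - 1)) := by ring
        have f2 := hyp.latt T hT1 hT2 t (hZ t ht1).1 t0 (hZ t0 ht01).1 ht2 ht02
        have f3 : |t - t0| ≤ 2 * |t - T| := by
          have g1 := hmin t ht
          have g2 := abs_sub_le t T t0
          rw [abs_sub_comm T t0] at g2
          linarith
        rw [f1, norm_neg, norm_mul, norm_term]
        have f4 : Real.exp (-(2 * (t - T) ^ 2)) =
            Real.exp (-(t - T) ^ 2) * Real.exp (-(t - T) ^ 2) := by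
          rw [← Real.exp_add]
          congr 1
          ring
        have f5 : ‖cexp (((P * (t - t0) : ℝ) : ℂ) * I) - 1‖ ≤
            δ / Real.sqrt L * (2 * |t - T|) :=
          f2.trans (mul_le_mul_of_nonneg_left f3 (by positivity))
        calc ‖aa t‖ * Real.exp (-(2 * (t - T) ^ 2)) * ‖cexp (((P * (t - t0) : ℝ) : ℂ) * I) - 1‖
            ≤ ‖aa t‖ * Real.exp (-(2 * (t - T) ^ 2)) * (δ / Real.sqrt L * (2 * |t - T|)) :=
              mul_le_mul_of_nonneg_left f5 (by positivity)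
          _ = _ := by
              rw [f4]
              ring
      have hsub : ∀ (f : ℝ → ℝ), (∀ t, 0 ≤ f t) → ∑ t ∈ Z', f t ≤ ∑ t ∈ Z, f t := fun f hf =>
        Finset.sum_le_sum_of_subset_of_nonneg (Finset.filter_subset _ _) (fun t _ _ => hf t)
      calc ‖∑ t ∈ Z', (term 2 v T t - term 2 v T t * cexp (((P * (t - t0) : ℝ) : ℂ) * I))‖
          ≤ ∑ t ∈ Z', ‖term 2 v T t - term 2 v T t * cexp (((P * (t - t0) : ℝ) : ℂ) * I)‖ :=
            norm_sum_le _ _
        _ ≤ ∑ t ∈ Z', δ / Real.sqrt L * ((‖aa t‖ * Real.exp (-(t - T) ^ 2)) *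
            (2 * |t - T| * Real.exp (-(t - T) ^ 2))) := Finset.sum_le_sum e2
        _ = δ / Real.sqrt L * ∑ t ∈ Z', (‖aa t‖ * Real.exp (-(t - T) ^ 2)) *
            (2 * |t - T| * Real.exp (-(t - T) ^ 2)) := by rw [Finset.mul_sum]
        _ ≤ δ / Real.sqrt L * (Real.sqrt (∑ t ∈ Z', (‖aa t‖ * Real.exp (-(t - T) ^ 2)) ^ 2) *
            Real.sqrt (∑ t ∈ Z', (2 * |t - T| * Real.exp (-(t - T) ^ 2)) ^ 2)) := by
            refine mul_le_mul_of_nonneg_left ?_ (by positivity)
            exact Real.sum_mul_le_sqrt_mul_sqrt _ _ _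
        _ ≤ δ / Real.sqrt L * (Real.sqrt (N2 Z T) * Real.sqrt (C2 * L)) := by
            refine mul_le_mul_of_nonneg_left ?_ (by positivity)
            refine mul_le_mul (Real.sqrt_le_sqrt ?_) (Real.sqrt_le_sqrt ?_) (Real.sqrt_nonneg _)
              (Real.sqrt_nonneg _)
            · refine (hsub _ (fun t => sq_nonneg _)).trans (le_of_eq ?_)
              unfold N2
              refine Finset.sum_congr rfl fun t _ => ?_
              rw [mul_pow, ← Real.exp_nat_mul]
              congr 2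
              push_cast
              ring
            · refine (hsub _ (fun t => sq_nonneg _)).trans ?_
              refine le_trans (Finset.sum_le_sum fun t _ => ?_) (hcnt L Z (by linarith) hsp T)
              rw [mul_pow, mul_pow, sq_abs, ← Real.exp_nat_mul]
              have g1 : (((2 : ℕ) : ℝ) * -(t - T) ^ 2) = -(2 * (t - T) ^ 2) := by
                push_cast
                ring
              rw [g1, mul_comm]
              refine mul_le_mul_of_nonneg_left ?_ (Real.exp_pos _).le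
              nlinarith [sq_nonneg (1 - (t - T) ^ 2)]
        _ = Real.sqrt C2 * δ * Real.sqrt (N2 Z T) := by
            rw [Real.sqrt_mul hC2.le]
            field_simp
  have hA := hfar v
  have hB := hfar (v + P)
  have ht := tail_small C1 L X hXL hL3 hLC
  rw [hsplit v, hsplit (v + P)]
  set A1 := ∑ t ∈ Z', term 2 v T t
  set A2 := ∑ t ∈ Zc, term 2 v T t
  set B1 := ∑ t ∈ Z', term 2 (v + P) T t
  set B2 := ∑ t ∈ Zc, term 2 (v + P) T t
  have k1 : |‖A1 + A2‖ - ‖A1‖| ≤ ‖A2‖ := by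
    refine (abs_norm_sub_norm_le _ _).trans (le_of_eq ?_)
    congr 1
    ring
  have k2 : |‖B1 + B2‖ - ‖B1‖| ≤ ‖B2‖ := by
    refine (abs_norm_sub_norm_le _ _).trans (le_of_eq ?_)
    congr 1
    ring
  rw [abs_le] at k1 k2 hnear ⊢
  constructor <;> linarith [k1.1, k1.2, k2.1, k2.2, hnear.1, hnear.2]

end Pool.Agent.Q53.AL
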