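import Pool.Agent.Q72.AL.Stm2
import Pool.Agent.H382R2.Final0

/-!
# Project AL: the Mellin transform and the contradiction (job MEL)

`strip`: the Mellin transform of a function `B` with `B = O(z²)` at `0` and `B = S + O(1/z)` at infinity,
times `s`, is analytic in the strip `-1 < Re s < 2`.
-/

set_option autoImplicit false

open Complex MeasureTheory Filter Topology Set

noncomputable section

namespace Pool.Agent.Q53.AL

open Pool.Agent.Q72.AL

theorem loc_ind {f : ℝ → ℂ} {s : Set ℝ} (hs : MeasurableSet s)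
    (h : LocallyIntegrableOn f (Ioi 0)) : LocallyIntegrableOn (s.indicator f) (Ioi 0) := by
  rw [locallyIntegrableOn_iff isOpen_Ioi.isLocallyClosed] at h ⊢
  intro k hk hkc
  exact (h k hk hkc).indicator hs

theorem strip (B : ℝ → ℝ) (S C z0 C2 : ℝ) (hB : ContinuousOn B (Ioi 0)) (hz0 : 0 < z0)
    (h0 : ∀ z : ℝ, 0 < z → z ≤ 1 / 2 → |B z| ≤ C * z ^ 2)
    (h1 : ∀ z : ℝ, z0 ≤ z → |S - B z| ≤ C2 / z) :
    ∃ H : ℂ → ℂ, DifferentiableOn ℂ H {s : ℂ | -1 < s.re ∧ s.re < 2} ∧
      ∀ s : ℂ, 0 < s.re → s.re < 2 →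
        H s = s * ∫ z in Ioi (0 : ℝ), ((B z : ℝ) : ℂ) * (z : ℂ) ^ (-s - 1) := by
  set z1 : ℝ := max z0 1 with hz1
  have hz1' : 1 ≤ z1 := le_max_right _ _
  have hz1p : 0 < z1 := lt_of_lt_of_le one_pos hz1'
  set f1 : ℝ → ℂ := (Set.Iic z1).indicator (fun z => ((B z : ℝ) : ℂ)) with hf1
  set f2 : ℝ → ℂ := (Set.Ioi z1).indicator (fun z => ((B z - S : ℝ) : ℂ)) with hf2
  set f3 : ℝ → ℂ := (Set.Ioi z1).indicator (fun _ => (S : ℂ)) with hf3
  have l1 : LocallyIntegrableOn f1 (Ioi 0) := loc_ind measurableSet_Iic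
    ((Complex.continuous_ofReal.comp_continuousOn hB).locallyIntegrableOn measurableSet_Ioi)
  have l2 : LocallyIntegrableOn f2 (Ioi 0) := loc_ind measurableSet_Ioi
    ((Complex.continuous_ofReal.comp_continuousOn
      (hB.sub continuousOn_const)).locallyIntegrableOn measurableSet_Ioi)
  have t1 : f1 =O[atTop] (fun z : ℝ => z ^ (-(2 : ℝ))) := by
    have : f1 =ᶠ[atTop] fun _ => (0 : ℂ) := by
      filter_upwards [eventually_gt_atTop z1] with z hz
      rw [hf1, Set.indicator_of_notMem]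
      simpa using hz
    exact this.trans_isBigO (Asymptotics.isBigO_zero _ _)
  have b1 : f1 =O[𝓝[>] 0] (fun z : ℝ => z ^ (-(-2 : ℝ))) := by
    refine Asymptotics.IsBigO.of_bound C ?_
    have : Ioo (0 : ℝ) (1 / 2) ∈ 𝓝[>] (0 : ℝ) := Ioo_mem_nhdsGT (by norm_num)
    filter_upwards [this] with z hz
    have hz2 : z ≤ z1 := by linarith [hz.2]
    rw [hf1, Set.indicator_of_mem (show z ∈ Iic z1 from hz2), neg_neg, Complex.norm_real,
      Real.norm_eq_abs, Real.norm_eq_abs, Real.rpow_two, abs_of_nonneg (sq_nonneg z)]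
    exact h0 z hz.1 hz.2.le
  have t2 : f2 =O[atTop] (fun z : ℝ => z ^ (-(1 : ℝ))) := by
    refine Asymptotics.IsBigO.of_bound C2 ?_
    filter_upwards [eventually_gt_atTop z1] with z hz
    have hzp : 0 < z := hz1p.trans hz
    have := h1 z (le_trans (le_max_left _ _) (le_of_lt hz))
    rw [hf2, Set.indicator_of_mem (show z ∈ Ioi z1 from hz), Complex.norm_real, Real.norm_eq_abs,
      Real.norm_eq_abs, Real.rpow_neg_one, abs_of_pos (inv_pos.mpr hzp), abs_sub_comm]
    rwa [div_eq_mul_inv] at this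
  have b2 : f2 =O[𝓝[>] 0] (fun z : ℝ => z ^ (-(-2 : ℝ))) := by
    have : f2 =ᶠ[𝓝[>] 0] fun _ => (0 : ℂ) := by
      filter_upwards [Ioo_mem_nhdsGT hz1p] with z hz
      rw [hf2, Set.indicator_of_notMem]
      simpa using hz.2.le
    exact this.trans_isBigO (Asymptotics.isBigO_zero _ _)
  refine ⟨fun s => s * mellin f1 (-s) + s * mellin f2 (-s) + S * (z1 : ℂ) ^ (-s), ?_, ?_⟩
  · intro s hs
    obtain ⟨hs1, hs2⟩ := hs
    have d1 : DifferentiableAt ℂ (mellin f1) (-s) :=
      mellin_differentiableAt_of_isBigO_rpow l1 t1 (by simp; linarith) b1 (by simp; linarith)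
    have d2 : DifferentiableAt ℂ (mellin f2) (-s) :=
      mellin_differentiableAt_of_isBigO_rpow l2 t2 (by simp; linarith) b2 (by simp; linarith)
    have e1 : DifferentiableAt ℂ ((mellin f1) ∘ (fun s : ℂ => -s)) s :=
      DifferentiableAt.comp s d1 differentiable_id.neg.differentiableAt
    have e2 : DifferentiableAt ℂ ((mellin f2) ∘ (fun s : ℂ => -s)) s :=
      DifferentiableAt.comp s d2 differentiable_id.neg.differentiableAt
    have e3 : DifferentiableAt ℂ (fun s : ℂ => (z1 : ℂ) ^ (-s)) s := by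
      have hz : (z1 : ℂ) ≠ 0 := by exact_mod_cast hz1p.ne'
      exact (differentiableAt_id.neg).const_cpow (Or.inl hz)
    exact (((differentiableAt_id.mul e1).add (differentiableAt_id.mul e2)).add
      (e3.const_mul (S : ℂ))).differentiableWithinAt
  · intro s hs hs2
    have hs0 : s ≠ 0 := by
      rintro rfl
      simp at hs
    have c1 : MellinConvergent f1 (-s) :=
      mellinConvergent_of_isBigO_rpow l1 t1 (by simp; linarith) b1 (by simp; linarith)
    have c2 : MellinConvergent f2 (-s) :=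
      mellinConvergent_of_isBigO_rpow l2 t2 (by simp; linarith) b2 (by simp; linarith)
    have hre : (-s - 1).re < -1 := by simp; linarith
    have i3 := integrableOn_Ioi_cpow_of_lt hre hz1p
    have eq3 : (fun t : ℝ => (t : ℂ) ^ (-s - 1) • f3 t) =
        (Ioi z1).indicator (fun t : ℝ => (t : ℂ) ^ (-s - 1) * (S : ℂ)) := by
      funext t
      by_cases ht : t ∈ Ioi z1
      · rw [hf3, Set.indicator_of_mem ht, Set.indicator_of_mem ht, smul_eq_mul]
      · rw [hf3, Set.indicator_of_notMem ht, Set.indicator_of_notMem ht, smul_zero]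
    have c3 : MellinConvergent f3 (-s) := by
      unfold MellinConvergent
      rw [eq3]
      exact ((integrable_indicator_iff measurableSet_Ioi).mpr (i3.mul_const _)).integrableOn
    have m3 : mellin f3 (-s) = S * (z1 : ℂ) ^ (-s) / s := by
      unfold mellin
      rw [eq3, setIntegral_indicator measurableSet_Ioi]
      have : Ioi (0 : ℝ) ∩ Ioi z1 = Ioi z1 :=
        Set.inter_eq_right.mpr (Ioi_subset_Ioi hz1p.le)
      rw [this, integral_mul_const, integral_Ioi_cpow_of_lt hre hz1p]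
      have h5 : -s - 1 + 1 = -s := by ring
      rw [h5]
      field_simp
    have hsum : ∀ t ∈ Ioi (0 : ℝ), ((B t : ℝ) : ℂ) * (t : ℂ) ^ (-s - 1) =
        (t : ℂ) ^ (-s - 1) • f1 t + (t : ℂ) ^ (-s - 1) • f2 t + (t : ℂ) ^ (-s - 1) • f3 t := by
      intro t _
      by_cases ht : t ≤ z1
      · have h6 : t ∉ Ioi z1 := by simpa using ht
        rw [hf1, hf2, hf3, Set.indicator_of_mem (show t ∈ Iic z1 from ht),
          Set.indicator_of_notMem h6, Set.indicator_of_notMem h6]
        simp only [smul_eq_mul]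
        ring
      · have h6 : t ∉ Iic z1 := by simpa using ht
        have h7 : t ∈ Ioi z1 := by simpa using ht
        rw [hf1, hf2, hf3, Set.indicator_of_notMem h6, Set.indicator_of_mem h7,
          Set.indicator_of_mem h7]
        simp only [smul_eq_mul]
        push_cast
        ring
    rw [setIntegral_congr_fun measurableSet_Ioi hsum]
    have c1' : IntegrableOn (fun t : ℝ => (t : ℂ) ^ (-s - 1) • f1 t) (Ioi 0) := c1
    have c2' : IntegrableOn (fun t : ℝ => (t : ℂ) ^ (-s - 1) • f2 t) (Ioi 0) := c2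
    have c3' : IntegrableOn (fun t : ℝ => (t : ℂ) ^ (-s - 1) • f3 t) (Ioi 0) := c3
    have i3' := integral_add (c1'.add c2') c3'
    simp only [Pi.add_apply] at i3'
    rw [i3', integral_add c1' c2']
    have m3' : ∫ t in Ioi (0 : ℝ), (t : ℂ) ^ (-s - 1) • f3 t = S * (z1 : ℂ) ^ (-s) / s := m3
    rw [m3']
    show s * mellin f1 (-s) + s * mellin f2 (-s) + S * (z1 : ℂ) ^ (-s) =
      s * (mellin f1 (-s) + mellin f2 (-s) + S * (z1 : ℂ) ^ (-s) / s)
    field_simp

theorem mel (h1 : J_MT) (h2 : J_BB) : J_MEL := by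
  intro RH S C z0 hz0 hS
  obtain ⟨hBc, C', hC', hbd, hsm⟩ := h2
  obtain ⟨H, hHd, hH⟩ := strip BB S C' z0 C hBc hz0 hsm hS
  obtain ⟨ρ, r1, r2, r3, r4⟩ := SG.exists_zero_above 1
  have hρ1 : ρ ≠ 1 := by
    rintro rfl
    simp at r4
    linarith
  have hre : ρ.re = 1 / 2 := by
    refine RH ρ r1 ?_ hρ1
    rintro ⟨n, hn⟩
    rw [hn] at r2
    have : ((-2 * ((n : ℂ) + 1))).re = -2 * ((n : ℝ) + 1) := by simp
    rw [this] at r2
    have : (0 : ℝ) ≤ n := Nat.cast_nonneg n
    linarith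
  set U : Set ℂ := {s : ℂ | -1 < s.re ∧ s.re < 2} with hU
  have hUo : IsOpen U := by
    have e1 : IsOpen {s : ℂ | -1 < s.re} := isOpen_lt continuous_const Complex.continuous_re
    have e2 : IsOpen {s : ℂ | s.re < 2} := isOpen_lt Complex.continuous_re continuous_const
    exact e1.inter e2
  have hUc : IsPreconnected U :=
    ((convex_halfSpace_re_gt (-1)).inter (convex_halfSpace_re_lt 2)).isPreconnected
  have z1eq : ∀ s : ℂ, s ≠ 1 → riemannZeta₁ s = (s - 1) * riemannZeta s := by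
    intro s hs
    have h : s - 1 ≠ 0 := sub_ne_zero.mpr hs
    rw [riemannZeta_eq_inv_sub_mul hs, ← mul_assoc, mul_inv_cancel₀ h, one_mul]
  have hc : (4 * ((Real.sqrt Real.pi : ℝ) : ℂ)) ≠ 0 := by
    have : Real.sqrt Real.pi ≠ 0 := (Real.sqrt_pos.mpr Real.pi_pos).ne'
    exact mul_ne_zero (by norm_num) (by exact_mod_cast this)
  let L : ℂ → ℂ := fun s => H s * riemannZeta₁ (2 + 2 * s) * (s + 1) ^ 2
  let R : ℂ → ℂ := fun s => (1 + 2 * s) * (cexp (s ^ 2) / (4 * ((Real.sqrt Real.pi : ℝ) : ℂ))) *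
    ((2 : ℂ) ^ ((s + 1) / 2) - 1) ^ 2 * riemannZeta₁ (1 + s)
  have hL : AnalyticOnNhd ℂ L U := by
    refine DifferentiableOn.analyticOnNhd ?_ hUo
    refine (hHd.mul ?_).mul ?_
    · exact (differentiable_riemannZeta₁.comp (by fun_prop : Differentiable ℂ fun s : ℂ =>
        2 + 2 * s)).differentiableOn
    · fun_prop
  have hR : AnalyticOnNhd ℂ R U := by
    refine DifferentiableOn.analyticOnNhd ?_ hUo
    refine Differentiable.differentiableOn ?_
    refine Differentiable.mul (Differentiable.mul (Differentiable.mul ?_ ?_) ?_) ?_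
    · fun_prop
    · fun_prop
    · refine Differentiable.pow (Differentiable.sub_const ?_ _) 2
      exact (by fun_prop : Differentiable ℂ fun s : ℂ => (s + 1) / 2).const_cpow
        (Or.inl (by norm_num))
    · exact differentiable_riemannZeta₁.comp (by fun_prop : Differentiable ℂ fun s : ℂ => 1 + s)
  have hev : L =ᶠ[𝓝 (1 : ℂ)] R := by
    have e1 : {s : ℂ | 0 < s.re} ∩ {s : ℂ | s.re < 2} ∈ 𝓝 (1 : ℂ) := by
      refine IsOpen.mem_nhds ((isOpen_lt continuous_const Complex.continuous_re).inter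
        (isOpen_lt Complex.continuous_re continuous_const)) ?_
      constructor
      · show (0 : ℝ) < (1 : ℂ).re
        simp
      · show (1 : ℂ).re < 2
        rw [Complex.one_re]
        norm_num
    filter_upwards [e1] with s hs
    obtain ⟨hs1, hs2⟩ := hs
    have hs1 : 0 < s.re := hs1
    have hs2 : s.re < 2 := hs2
    have hs0 : s ≠ 0 := by
      rintro rfl
      simp at hs1
    have hs3 : s + 1 ≠ 0 := by
      intro h
      have := congrArg Complex.re h
      simp at this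
      linarith
    have hmt := (h1 s hs1).2
    have q1 : riemannZeta₁ (2 + 2 * s) = (1 + 2 * s) * riemannZeta (2 + 2 * s) := by
      rw [z1eq]
      · ring
      · intro h
        have := congrArg Complex.re h
        simp at this
        linarith
    have q2 : riemannZeta₁ (1 + s) = s * riemannZeta (1 + s) := by
      rw [z1eq]
      · ring
      · intro h
        have := congrArg Complex.re h
        simp at this
        linarith
    show H s * riemannZeta₁ (2 + 2 * s) * (s + 1) ^ 2 = (1 + 2 * s) *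
      (cexp (s ^ 2) / (4 * ((Real.sqrt Real.pi : ℝ) : ℂ))) *
      ((2 : ℂ) ^ ((s + 1) / 2) - 1) ^ 2 * riemannZeta₁ (1 + s)
    rw [q1, q2, hH s hs1 hs2]
    calc s * (∫ z in Ioi (0 : ℝ), ((BB z : ℝ) : ℂ) * (z : ℂ) ^ (-s - 1)) *
          ((1 + 2 * s) * riemannZeta (2 + 2 * s)) * (s + 1) ^ 2
        = s * (1 + 2 * s) * (s + 1) ^ 2 *
          ((∫ z in Ioi (0 : ℝ), ((BB z : ℝ) : ℂ) * (z : ℂ) ^ (-s - 1)) *
            riemannZeta (2 + 2 * s)) := by ring
      _ = s * (1 + 2 * s) * (s + 1) ^ 2 * (cexp (s ^ 2) / (4 * ((Real.sqrt Real.pi : ℝ) : ℂ)) *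
          (((2 : ℂ) ^ ((s + 1) / 2) - 1) / (s + 1)) ^ 2 * riemannZeta (1 + s)) := by rw [hmt]
      _ = _ := by
        rw [div_pow]
        field_simp
  have hEq : EqOn L R U := by
    refine hL.eqOn_of_preconnected_of_eventuallyEq hR hUc (z₀ := 1) ?_ hev
    constructor
    · rw [Complex.one_re]; norm_num
    · rw [Complex.one_re]; norm_num
  set s0 : ℂ := ρ / 2 - 1 with hs0
  have hs0re : s0.re = -3 / 4 := by
    rw [hs0]
    have : (ρ / 2 - 1).re = ρ.re / 2 - 1 := by simp
    rw [this, hre]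
    norm_num
  have hmem : s0 ∈ U := by
    constructor
    · rw [hs0re]; norm_num
    · rw [hs0re]; norm_num
  have h0 := hEq hmem
  have hL0 : L s0 = 0 := by
    show H s0 * riemannZeta₁ (2 + 2 * s0) * (s0 + 1) ^ 2 = 0
    have : 2 + 2 * s0 = ρ := by rw [hs0]; ring
    rw [this, z1eq ρ hρ1, r1]
    simp
  rw [hL0] at h0
  have hR0 : R s0 ≠ 0 := by
    show (1 + 2 * s0) * (cexp (s0 ^ 2) / (4 * ((Real.sqrt Real.pi : ℝ) : ℂ))) *
      ((2 : ℂ) ^ ((s0 + 1) / 2) - 1) ^ 2 * riemannZeta₁ (1 + s0) ≠ 0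
    refine mul_ne_zero (mul_ne_zero (mul_ne_zero ?_ ?_) ?_) ?_
    · have : 1 + 2 * s0 = ρ - 1 := by rw [hs0]; ring
      rw [this]
      exact sub_ne_zero.mpr hρ1
    · exact div_ne_zero (Complex.exp_ne_zero _) hc
    · refine pow_ne_zero 2 ?_
      intro h
      have h3 : (2 : ℂ) ^ ((s0 + 1) / 2) = 1 := sub_eq_zero.mp h
      have h4 := congrArg norm h3
      have h5 : ‖((2 : ℝ) : ℂ) ^ ((s0 + 1) / 2)‖ = (2 : ℝ) ^ ((s0 + 1) / 2).re :=
        Complex.norm_cpow_eq_rpow_re_of_pos (by norm_num) _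
      have h6 : ((2 : ℝ) : ℂ) = (2 : ℂ) := by norm_num
      rw [h6] at h5
      rw [h5, norm_one] at h4
      have h7 : ((s0 + 1) / 2).re = 1 / 8 := by
        have : ((s0 + 1) / 2).re = (s0.re + 1) / 2 := by simp
        rw [this, hs0re]
        norm_num
      rw [h7] at h4
      have h8 : (1 : ℝ) < 2 ^ (1 / 8 : ℝ) := Real.one_lt_rpow (by norm_num) (by norm_num)
      linarith
    · have h9 : 1 + s0 = ρ / 2 := by rw [hs0]; ring
      have h10 : (ρ / 2).re = 1 / 4 := by
        have : (ρ / 2).re = ρ.re / 2 := by simp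
        rw [this, hre]
        norm_num
      have h11 : ρ / 2 ≠ 1 := by
        intro h
        rw [h, Complex.one_re] at h10
        norm_num at h10
      rw [h9, z1eq _ h11]
      refine mul_ne_zero (sub_ne_zero.mpr h11) ?_
      intro hz
      have h12 := RH (ρ / 2) hz (by
        rintro ⟨n, hn⟩
        rw [hn] at h10
        have : ((-2 * ((n : ℂ) + 1))).re = -2 * ((n : ℝ) + 1) := by simp
        rw [this] at h10
        have : (0 : ℝ) ≤ n := Nat.cast_nonneg n
        linarith) h11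
      rw [h10] at h12
      norm_num at h12
  exact hR0 h0.symm

end Pool.Agent.Q53.AL
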